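import Pool.Agent.H45.KTH.FCK
import Pool.Agent.H60.LQ.Cfg

/-!
# LQ, row FCK2 (Fact K with explicit coefficients)
-/

set_option autoImplicit false

namespace Pool.LQ

open Finset Real
open Pool.Agent.H49.Ent Pool.Agent.H32.Dense Pool.KTH

/-- The logarithm is small. -/
theorem log3_le {δ : ℝ} (hδ : 0 < δ) (J : ℕ) :
    Real.log (J + 3) ≤ δ * lm J + (3 * (δ * Real.log 2) + |Real.log (δ * Real.log 2)|) := by
  have hl2 : 0 < Real.log 2 := Real.log_pos (by norm_num)
  have hη : 0 < δ * Real.log 2 := mul_pos hδ hl2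
  have hJ : (0 : ℝ) < (J : ℝ) + 3 := by positivity
  have h1 := Real.log_le_sub_one_of_pos (mul_pos hη hJ)
  rw [Real.log_mul hη.ne' hJ.ne'] at h1
  have h2 := neg_abs_le (Real.log (δ * Real.log 2))
  unfold lm
  nlinarith

theorem fck2 (hSCL : SCL2Stmt) : FCK2Stmt := by
  intro d hd ε hε
  obtain ⟨CS, hCS, hS⟩ := hSCL (ε / 2) (by positivity)
  -- the constants
  have hd0 : (0 : ℝ) ≤ d := Nat.cast_nonneg d
  have hl57 : 0 ≤ Real.log 57 := Real.log_nonneg (by norm_num)
  have hlogd : 0 ≤ Real.log d := Real.log_natCast_nonneg d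
  have hl2 : 0 ≤ Real.log 2 := Real.log_nonneg (by norm_num)
  have hl3 : 0 ≤ Real.log 3 := Real.log_nonneg (by norm_num)
  set c₀ : ℝ := 3 * (ε / 2 * Real.log 2) + |Real.log (ε / 2 * Real.log 2)| with hc₀
  have hc₀0 : 0 ≤ c₀ := by positivity
  set K : ℝ := Real.log d + c₀ + d * (2 * Real.log 57 + 10) + Real.log 3 +
    CS * (1 + Real.log 2) + 2 * d with hK
  have hK0 : 0 ≤ K := by positivity
  refine ⟨K, hK0, fun J => ?_⟩
  intro Ω ζ _ q Z v v' u u' t r e hq h1 hv hv' hu hu' ht hr hcross hunif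
  have hlm := lm_nonneg J
  -- the difference of the directions
  set D : Ω → Fin d → ℤ := fun w k => v' w k - v w k with hDdef
  have hDb : ∀ w, 0 < q w → ∀ k, |D w k| ≤ 2 * 2 ^ J := by
    intro w hw k
    have a := hv w hw k
    have b := hv' w hw k
    rw [abs_le] at a b ⊢
    simp only [hDdef]
    constructor <;> linarith [a.1, a.2, b.1, b.2]
  have hM : (0 : ℝ) < 2 ^ J := by positivity
  have hMc : (((2 ^ J : ℕ) : ℕ) : ℝ) = 2 ^ J := by push_cast; rfl
  -- the point and its position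
  set P : Ω → Fin d → ℤ := fun w => rd (pos (2 ^ J) (u' w) (v' w) (r w)) with hP
  -- the equations of the two lines
  have hpos : ∀ (a : Fin d → ℝ) (b : Fin d → ℤ) (x : ℤ) (k : Fin d),
      pos (2 ^ J) a b x k = a k + (x : ℝ) / 2 ^ J * b k := by
    intro a b x k
    unfold pos
    rw [hMc]
  have hW : ∀ w, 0 < q w → ∀ j, |((P w j : ℝ) - pos (2 ^ J) (u w) (v w) (r w) j) -
      ((r w - t w : ℤ) : ℝ) / 2 ^ J * D w j| ≤ 2 := by
    intro w hw j
    have c1 := congrFun (hcross w hw) j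
    simp only [rd] at c1
    have f1 := Int.floor_le (pos (2 ^ J) (u w) (v w) (t w) j)
    have f2 := Int.lt_floor_add_one (pos (2 ^ J) (u w) (v w) (t w) j)
    have f3 := Int.floor_le (pos (2 ^ J) (u' w) (v' w) (t w) j)
    have f4 := Int.lt_floor_add_one (pos (2 ^ J) (u' w) (v' w) (t w) j)
    rw [c1] at f1 f2
    have g1 := Int.floor_le (pos (2 ^ J) (u' w) (v' w) (r w) j)
    have g2 := Int.lt_floor_add_one (pos (2 ^ J) (u' w) (v' w) (r w) j)
    have hPd : (P w j : ℝ) = (⌊pos (2 ^ J) (u' w) (v' w) (r w) j⌋ : ℝ) := rfl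
    rw [hPd]
    have e1 : ((r w - t w : ℤ) : ℝ) / 2 ^ J * D w j =
        (pos (2 ^ J) (u' w) (v' w) (r w) j - pos (2 ^ J) (u w) (v w) (r w) j) -
        (pos (2 ^ J) (u' w) (v' w) (t w) j - pos (2 ^ J) (u w) (v w) (t w) j) := by
      simp only [hpos, hDdef]
      push_cast
      ring
    rw [e1, abs_le]
    constructor <;> linarith
  -- the side information with the ratios
  have hdetu : Det q (fun w => (v w, pp J u' v' r w, Z w))
      (fun w => fun j => (P w j : ℝ) - pos (2 ^ J) (u w) (v w) (r w) j) := by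
    intro w w' a b h
    have h2 := Prod.ext_iff.1 h
    have h3 := Prod.ext_iff.1 h2.2
    have h4 := Prod.ext_iff.1 h3.1
    have hv2 : v w = v w' := h2.1
    have hr2 : r w = r w' := h4.1
    have hP2 : P w = P w' := h4.2
    have hu2 : u w = u w' := hu w w' a b (Prod.ext h2.1 h3.2)
    funext j
    show (P w j : ℝ) - pos (2 ^ J) (u w) (v w) (r w) j =
      (P w' j : ℝ) - pos (2 ^ J) (u w') (v w') (r w') j
    rw [hP2, hu2, hv2, hr2]
  have hI := iot_CH hd hq h1 (fun w => (v w, pp J u' v' r w, Z w)) D (fun w => r w - t w)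
    (fun w => fun j => (P w j : ℝ) - pos (2 ^ J) (u w) (v w) (r w) j) hdetu hDb hW
  -- the times are far
  have hgap2 : Ex q (fun w => Real.log (1 + 2 ^ J / max 1 |((r w - t w : ℤ) : ℝ)|)) =
      Ex q (fun w => gp J (r w) (t w)) := by
    unfold gp
    congr 1
    funext w
    push_cast
    rfl
  -- SCL
  set g : Ω → ℤ := fun w => D w (kk hd (D w)) with hg
  set x : Ω → ℝ := fun w => u' w (kk hd (D w)) - u w (kk hd (D w)) with hx
  set s0 : Ω → ℤ := fun w => ⌊x w + (r w : ℝ) / 2 ^ J * g w⌋ with hs0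
  have hscl := hS J Ω _ q (fun w => (iot hd (D w), v w, Z w)) g x r hq h1
    (fun w hw => hDb w hw _)
  have hlogr : Ex q (fun w => Real.log (1 + |(r w : ℝ)| / 2 ^ J)) ≤ Real.log 2 := by
    have : Ex q (fun w => Real.log (1 + |(r w : ℝ)| / 2 ^ J)) ≤ Ex q (fun _ => Real.log 2) := by
      refine Ex_mono hq fun w hw => ?_
      refine Real.log_le_log (by positivity) ?_
      have h2 := hr w hw
      have h3 : (0 : ℝ) ≤ r w := by exact_mod_cast h2.1
      have h4 : (r w : ℝ) ≤ 2 ^ J := by exact_mod_cast h2.2.le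
      rw [abs_of_nonneg h3]
      have : (r w : ℝ) / 2 ^ J ≤ 1 := by
        rw [div_le_one hM]
        exact h4
      linarith
    rwa [Ex_const h1] at this
  have hmono : CH q r (fun w => ((v w, v' w), Z w)) ≤
      CH q r (fun w => ((g w, x w), iot hd (D w), v w, Z w)) := by
    refine CH_mono_cond hq ?_
    intro w w' a b h
    have h2 := Prod.ext_iff.1 h
    have h3 := Prod.ext_iff.1 h2.1
    have hv2 : v w = v w' := h3.1
    have hv2' : v' w = v' w' := h3.2
    have hZ2 : Z w = Z w' := h2.2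
    have hu2 : u w = u w' := hu w w' a b (Prod.ext hv2 hZ2)
    have hu2' : u' w = u' w' := hu' w w' a b (Prod.ext hv2' hZ2)
    have hD2 : D w = D w' := by
      funext k
      simp only [hDdef]
      rw [hv2, hv2']
    simp only [hg, hx]
    rw [hD2, hu2, hu2', hv2, hZ2]
  -- the entropies
  set Z' : Ω → ((Fin d → ℤ) × (Fin d × ℕ)) × (Fin d → ℤ) × ζ :=
    fun w => (iot hd (D w), v w, Z w) with hZ'
  set B : Ω → ℤ × (Fin d → ℤ) := pp J u' v' r with hB
  have t1 : CH q v' (fun w => (v w, B w, Z w)) ≤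
      CH q (fun w => iot hd (D w)) (fun w => (v w, B w, Z w)) +
        CH q v' (fun w => (iot hd (D w), (v w, B w, Z w))) := CH_le_add hq _ _ _
  have t2 : CH q v' (fun w => (iot hd (D w), (v w, B w, Z w))) =
      CH q v' (fun w => (B w, Z' w)) := by
    refine CH_congr hq (fun w w' _ _ h => (Prod.ext_iff.1 h).1)
      (fun w w' _ _ h => (Prod.ext_iff.1 h).1) ?_ ?_
    · intro w w' _ _ h
      simp only [hZ', Prod.mk.injEq] at h ⊢
      tauto
    · intro w w' _ _ h
      simp only [hZ', Prod.mk.injEq] at h ⊢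
      tauto
  have t3 : CH q (fun w => (v' w, B w)) Z' = CH q B Z' + CH q v' (fun w => (B w, Z' w)) :=
    CH_chain hq _ _ _
  have t4 : CH q (fun w => (v' w, B w)) Z' = CH q (fun w => (B w, v' w)) Z' := by
    refine CH_congr hq ?_ ?_ (fun _ _ _ _ h => h) (fun _ _ _ _ h => h)
    · intro w w' _ _ h
      simp only [Prod.mk.injEq] at h ⊢
      tauto
    · intro w w' _ _ h
      simp only [Prod.mk.injEq] at h ⊢
      tauto
  have t5 : CH q (fun w => (B w, v' w)) Z' = CH q v' Z' + CH q B (fun w => (v' w, Z' w)) :=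
    CH_chain hq _ _ _
  have t6 : CH q B (fun w => (v' w, Z' w)) ≤ CH q r (fun w => ((v w, v' w), Z w)) := by
    have h2 : CH q B (fun w => (v' w, Z' w)) ≤ CH q r (fun w => (v' w, Z' w)) := by
      refine CH_mono_left hq ?_
      intro w w' a b h
      have h2 := Prod.ext_iff.1 h
      have h3 := Prod.ext_iff.1 h2.2
      have hr2 : r w = r w' := h2.1
      have hv2' : v' w = v' w' := h3.1
      have hZ2 : Z w = Z w' := (Prod.ext_iff.1 (Prod.ext_iff.1 h3.2).2).2
      have hu2' : u' w = u' w' := hu' w w' a b (Prod.ext hv2' hZ2)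
      show pp J u' v' r w = pp J u' v' r w'
      unfold pp
      rw [hr2, hu2', hv2']
    refine h2.trans (CH_mono_cond hq ?_)
    intro w w' _ _ h
    have h2 := Prod.ext_iff.1 h
    have h3 := Prod.ext_iff.1 (Prod.ext_iff.1 h2.2).2
    have hv2' : v' w = v' w' := h2.1
    have hv2 : v w = v w' := h3.1
    have hZ2 : Z w = Z w' := h3.2
    show ((v w, v' w), Z w) = ((v w', v' w'), Z w')
    rw [hv2, hv2', hZ2]
  have t7 : CH q v' Z' ≤ CH q g Z' := by
    have h2 : CH q v' Z' = CH q D Z' := by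
      refine CH_congr hq ?_ ?_ (fun _ _ _ _ h => h) (fun _ _ _ _ h => h)
      · intro w w' _ _ h
        have h2 := Prod.ext_iff.1 h
        have hv2' : v' w = v' w' := h2.1
        have hv2 : v w = v w' := (Prod.ext_iff.1 (Prod.ext_iff.1 h2.2).2).1
        funext k
        show v' w k - v w k = v' w' k - v w' k
        rw [hv2, hv2']
      · intro w w' _ _ h
        have h2 := Prod.ext_iff.1 h
        have hD2 : D w = D w' := h2.1
        have hv2 : v w = v w' := (Prod.ext_iff.1 (Prod.ext_iff.1 h2.2).2).1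
        funext k
        have h3 := congrFun hD2 k
        have h4 := congrFun hv2 k
        have h5 : v' w k - v w k = v' w' k - v w' k := h3
        linarith
    rw [h2]
    exact CH_D_le hd hq (fun w => (v w, Z w)) D
  have t8 : CH q B Z' = CH q r Z' + CH q P (fun w => (r w, Z' w)) := by
    have h2 : CH q B Z' = CH q (fun w => (P w, r w)) Z' := by
      refine CH_congr hq ?_ ?_ (fun _ _ _ _ h => h) (fun _ _ _ _ h => h)
      · intro w w' _ _ h
        have h2 := Prod.ext_iff.1 (Prod.ext_iff.1 h).1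
        exact Prod.ext h2.2 h2.1
      · intro w w' _ _ h
        have h2 := Prod.ext_iff.1 (Prod.ext_iff.1 h).1
        exact Prod.ext h2.2 h2.1
    rw [h2]
    exact CH_chain hq _ _ _
  have t9 : CH q (fun w => (r w, s0 w)) Z' = CH q r Z' + CH q s0 (fun w => (r w, Z' w)) := by
    have h2 : CH q (fun w => (r w, s0 w)) Z' = CH q (fun w => (s0 w, r w)) Z' := by
      refine CH_congr hq ?_ ?_ (fun _ _ _ _ h => h) (fun _ _ _ _ h => h)
      · intro w w' _ _ h
        have h2 := Prod.ext_iff.1 (Prod.ext_iff.1 h).1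
        exact Prod.ext h2.2 h2.1
      · intro w w' _ _ h
        have h2 := Prod.ext_iff.1 (Prod.ext_iff.1 h).1
        exact Prod.ext h2.2 h2.1
    rw [h2]
    exact CH_chain hq _ _ _
  have t10 : CH q s0 (fun w => (r w, Z' w)) ≤ CH q P (fun w => (r w, Z' w)) + Real.log 3 := by
    have h2 := CH_le_add hq s0 P (fun w => (r w, Z' w))
    have h3 := CH_le_int hq h1 s0 (fun w => (P w, r w, Z' w)) (fun _ => 1) (by
      intro w w' a b h
      have h2 := Prod.ext_iff.1 h
      have h3 := Prod.ext_iff.1 h2.2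
      have h4 := Prod.ext_iff.1 h3.2
      have h5 := Prod.ext_iff.1 h4.2
      have hP2 : P w = P w' := h2.1
      have hr2 : r w = r w' := h3.1
      have hi2 : iot hd (D w) = iot hd (D w') := h4.1
      have hv2 : v w = v w' := h5.1
      have hZ2 : Z w = Z w' := h5.2
      have hk2 : kk hd (D w) = kk hd (D w') := (Prod.ext_iff.1 (Prod.ext_iff.1 hi2).2).1
      have hu2 : u w = u w' := hu w w' a b (Prod.ext hv2 hZ2)
      have key : ∀ w, x w + (r w : ℝ) / 2 ^ J * g w =
          pos (2 ^ J) (u' w) (v' w) (r w) (kk hd (D w)) -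
            pos (2 ^ J) (u w) (v w) (r w) (kk hd (D w)) := by
        intro w
        simp only [hx, hg, hpos, hDdef]
        push_cast
        ring
      have e1 : s0 w = ⌊pos (2 ^ J) (u' w) (v' w) (r w) (kk hd (D w)) -
            pos (2 ^ J) (u w) (v w) (r w) (kk hd (D w))⌋ := by
        simp only [hs0]
        rw [key]
      have e2 : s0 w' = ⌊pos (2 ^ J) (u' w') (v' w') (r w') (kk hd (D w')) -
            pos (2 ^ J) (u w') (v' w' |> fun _ => v w') (r w') (kk hd (D w'))⌋ := by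
        simp only [hs0]
        rw [key]
      have e3 : P w (kk hd (D w)) = P w' (kk hd (D w')) := by rw [hP2, hk2]
      have e4 : ⌊pos (2 ^ J) (u' w) (v' w) (r w) (kk hd (D w))⌋ =
          ⌊pos (2 ^ J) (u' w') (v' w') (r w') (kk hd (D w'))⌋ := e3
      rw [e1, e2]
      rw [← hu2, ← hv2, ← hr2, ← hk2] at *
      set A : ℝ := pos (2 ^ J) (u' w) (v' w) (r w) (kk hd (D w))
      set A' : ℝ := pos (2 ^ J) (u' w') (v' w') (r w) (kk hd (D w))
      set Cc : ℝ := pos (2 ^ J) (u w) (v w) (r w) (kk hd (D w))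
      have f1 := Int.floor_le A
      have f2 := Int.lt_floor_add_one A
      have f3 := Int.floor_le A'
      have f4 := Int.lt_floor_add_one A'
      rw [e4] at f1 f2
      have k1 := Int.floor_le (A - Cc)
      have k2 := Int.lt_floor_add_one (A - Cc)
      have k3 := Int.floor_le (A' - Cc)
      have k4 := Int.lt_floor_add_one (A' - Cc)
      have m1 : (⌊A - Cc⌋ : ℝ) - ⌊A' - Cc⌋ < 2 := by linarith
      have m2 : (⌊A' - Cc⌋ : ℝ) - ⌊A - Cc⌋ < 2 := by linarith
      have m3 : ⌊A - Cc⌋ - ⌊A' - Cc⌋ < 2 := by exact_mod_cast m1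
      have m4 : ⌊A' - Cc⌋ - ⌊A - Cc⌋ < 2 := by exact_mod_cast m2
      have m5 : |⌊A - Cc⌋ - ⌊A' - Cc⌋| ≤ 1 := abs_le.2 ⟨by omega, by omega⟩
      exact_mod_cast m5)
    rw [Ex_const h1] at h3
    norm_num at h3
    linarith
  set E : ℝ := CH q r (fun w => ((v w, v' w), Z w)) with hE
  have t11 : CH q g Z' ≤ CH q (fun w => (r w, s0 w)) Z' - lm J +
      2 * (lm J - CH q r (fun w => ((g w, x w), iot hd (D w), v w, Z w))) +
      CS * (1 + Ex q (fun w => Real.log (1 + |(r w : ℝ)| / 2 ^ J))) + ε / 2 * lm J := hscl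
  have t12 : CS * (1 + Ex q (fun w => Real.log (1 + |(r w : ℝ)| / 2 ^ J))) ≤
      CS * (1 + Real.log 2) := mul_le_mul_of_nonneg_left (by linarith) hCS
  -- final estimate
  have hI' : CH q (fun w => iot hd (D w)) (fun w => (v w, B w, Z w)) ≤
      Real.log d + Real.log (J + 3) + d * (2 * Real.log 57 +
      2 * Ex q (fun w => Real.log (1 + 2 ^ J / max 1 |((r w - t w : ℤ) : ℝ)|)) + 10) := hI
  rw [hgap2] at hI'
  have f4 := log3_le (δ := ε / 2) (by positivity) J
  have s1 : CH q v' (fun w => (B w, Z' w)) ≤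
      lm J - E + CS * (1 + Real.log 2) + ε / 2 * lm J + Real.log 3 := by linarith
  set g₀ : ℝ := Ex q (fun w => gp J (r w) (t w)) with hg₀
  have hg0 : 0 ≤ g₀ := by
    refine Ex_nonneg hq fun w _ => ?_
    unfold gp
    refine Real.log_nonneg ?_
    have : (0 : ℝ) ≤ 2 ^ J / max 1 |(r w : ℝ) - t w| := by positivity
    linarith
  have hKd : 2 * (d : ℝ) ≤ K := by
    have : 0 ≤ Real.log d + c₀ + d * (2 * Real.log 57 + 10) + Real.log 3 +
      CS * (1 + Real.log 2) := by positivity
    linarith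
  have s4 : 2 * (d : ℝ) * g₀ ≤ K * g₀ := mul_le_mul_of_nonneg_right hKd hg0
  have s5 : 2 * (d : ℝ) * g₀ + (K - 2 * d) ≤ K * (1 + g₀) := by
    have : (0 : ℝ) ≤ 2 * d := by positivity
    linarith
  show CH q v' (fun w => (v w, B w, Z w)) ≤ e + K * (1 + g₀) + ε * lm J
  have s6 : K - 2 * d = Real.log d + c₀ + d * (2 * Real.log 57 + 10) + Real.log 3 +
      CS * (1 + Real.log 2) := by rw [hK]; ring
  have s7 : (d : ℝ) * (2 * Real.log 57 + 2 * g₀ + 10) =
      d * (2 * Real.log 57 + 10) + 2 * (d : ℝ) * g₀ := by ring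
  have s8 : ε / 2 * lm J + ε / 2 * lm J = ε * lm J := by ring
  linarith

end Pool.LQ
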